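import Pool.Agent.ACK.StmtsD

/-! Row ILF of squad ACK (MP_0b396c_gt): flypes preserve the interlacement. -/

set_option linter.all false
set_option autoImplicit false

namespace Pool.Agent.ACK.H11

open Pool.Agent.ACK.D

theorem fl_rep {L : List ℕ} {x z : ℕ} (h : x ∉ L) :
    fl L x z = List.replicate (L.count z) z := by
  have h1 : fl L x z = L.filter fun w => w == z := by
    unfold fl
    apply List.filter_congr
    intro w hw
    have hne : w ≠ x := by
      intro he
      rw [he] at hw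
      exact h hw
    by_cases hz : w = z
    · simp [hz]
    · simp [hz, hne]
  rw [h1, List.filter_beq]

theorem fl_comm (l : List ℕ) (x y : ℕ) : fl l x y = fl l y x := by
  unfold fl
  apply List.filter_congr
  intro w _
  simp only [or_comm]

theorem il_comm (l : List ℕ) (x y : ℕ) : Il l x y ↔ Il l y x := by
  unfold Il
  rw [fl_comm l x y]
  constructor
  · rintro ⟨h, h1 | h1⟩
    · exact ⟨h.symm, Or.inr h1⟩
    · exact ⟨h.symm, Or.inl h1⟩
  · rintro ⟨h, h1 | h1⟩
    · exact ⟨h.symm, Or.inr h1⟩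
    · exact ⟨h.symm, Or.inl h1⟩

theorem fl_append (a b : List ℕ) (x y : ℕ) : fl (a ++ b) x y = fl a x y ++ fl b x y := by
  unfold fl
  exact List.filter_append a b

theorem fl_cons_self (a : List ℕ) (x y : ℕ) : fl (x :: a) x y = x :: fl a x y := by
  unfold fl
  rw [List.filter_cons_of_pos]
  simp

theorem fl_cons_ne (a : List ℕ) (x y z : ℕ) (h1 : x ≠ y) (h2 : x ≠ z) :
    fl (x :: a) y z = fl a y z := by
  unfold fl
  rw [List.filter_cons_of_neg]
  simp [h1, h2]

/-- from the case `y = x` to the general case -/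
theorem red {l l' : List ℕ} {x : ℕ} (h0 : ∀ y z, x ≠ y → x ≠ z → fl l y z = fl l' y z)
    (h1 : ∀ z, z ≠ x → (Il l x z ↔ Il l' x z)) (y z : ℕ) : Il l y z ↔ Il l' y z := by
  by_cases hy : x = y
  · subst hy
    by_cases hz : z = x
    · subst hz
      unfold Il
      simp
    · exact h1 z hz
  · by_cases hz : x = z
    · subst hz
      rw [il_comm l, il_comm l']
      exact h1 y fun h => hy h.symm
    · unfold Il
      rw [h0 y z hy hz]

/-- the counts -/
theorem cnt {U A V B : List ℕ} {x : ℕ} (l : List ℕ) (hU : Gw (U ++ V)) (hl : Gw l)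
    (hc : ∀ w, l.count w = U.count w + A.count w + V.count w + B.count w +
      (if w = x then 2 else 0)) :
    (x ∉ U ∧ x ∉ A ∧ x ∉ V ∧ x ∉ B) ∧ ∀ z, z ≠ x →
      ((U.count z + V.count z = 2 ∧ A.count z + B.count z = 0) ∨
        (U.count z + V.count z = 0 ∧ A.count z + B.count z = 2) ∨
        (U.count z + V.count z = 0 ∧ A.count z + B.count z = 0)) := by
  constructor
  · have h1 := hc x
    rw [if_pos rfl] at h1
    have h2 : x ∈ l := by
      rw [← List.count_pos_iff]
      omega
    have h3 := hl x h2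
    have e1 : U.count x = 0 := by omega
    have e2 : A.count x = 0 := by omega
    have e3 : V.count x = 0 := by omega
    have e4 : B.count x = 0 := by omega
    exact ⟨List.count_eq_zero.1 e1, List.count_eq_zero.1 e2, List.count_eq_zero.1 e3,
      List.count_eq_zero.1 e4⟩
  · intro z hz
    have h1 := hc z
    rw [if_neg hz] at h1
    have h4 : l.count z = 2 ∨ l.count z = 0 := by
      by_cases h : z ∈ l
      · exact Or.inl (hl z h)
      · exact Or.inr (List.count_eq_zero.2 h)
    have h5 : U.count z + V.count z = 2 ∨ U.count z + V.count z = 0 := by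
      rw [← List.count_append]
      by_cases h : z ∈ U ++ V
      · exact Or.inl (hU z h)
      · exact Or.inr (List.count_eq_zero.2 h)
    omega

theorem key7 (u a v b : ℕ)
    (h : (u + v = 2 ∧ a + b = 0) ∨ (u + v = 0 ∧ a + b = 2) ∨ (u + v = 0 ∧ a + b = 0)) :
    (u = 0 ∧ v = 2 ∧ a = 0 ∧ b = 0) ∨ (u = 1 ∧ v = 1 ∧ a = 0 ∧ b = 0) ∨
      (u = 2 ∧ v = 0 ∧ a = 0 ∧ b = 0) ∨ (u = 0 ∧ v = 0 ∧ a = 0 ∧ b = 2) ∨
      (u = 0 ∧ v = 0 ∧ a = 1 ∧ b = 1) ∨ (u = 0 ∧ v = 0 ∧ a = 2 ∧ b = 0) ∨
      (u = 0 ∧ v = 0 ∧ a = 0 ∧ b = 0) := by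
  rcases h with ⟨h1, h2⟩ | ⟨h1, h2⟩ | ⟨h1, h2⟩
  · have ha : a = 0 := by omega
    have hb : b = 0 := by omega
    have hu : u = 0 ∨ u = 1 ∨ u = 2 := by omega
    rcases hu with hu | hu | hu
    · exact Or.inl ⟨hu, by omega, ha, hb⟩
    · exact Or.inr (Or.inl ⟨hu, by omega, ha, hb⟩)
    · exact Or.inr (Or.inr (Or.inl ⟨hu, by omega, ha, hb⟩))
  · have hu : u = 0 := by omega
    have hv : v = 0 := by omega
    have ha : a = 0 ∨ a = 1 ∨ a = 2 := by omega
    rcases ha with ha | ha | ha
    · exact Or.inr (Or.inr (Or.inr (Or.inl ⟨hu, hv, ha, by omega⟩)))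
    · exact Or.inr (Or.inr (Or.inr (Or.inr (Or.inl ⟨hu, hv, ha, by omega⟩))))
    · exact Or.inr (Or.inr (Or.inr (Or.inr (Or.inr (Or.inl ⟨hu, hv, ha, by omega⟩)))))
  · exact Or.inr (Or.inr (Or.inr (Or.inr (Or.inr (Or.inr
      ⟨by omega, by omega, by omega, by omega⟩)))))

theorem fin1 (x z u a v b : ℕ) (hz : z ≠ x)
    (h : (u + v = 2 ∧ a + b = 0) ∨ (u + v = 0 ∧ a + b = 2) ∨ (u + v = 0 ∧ a + b = 0)) :
    ((x :: (List.replicate u z ++ (List.replicate a z ++ x :: (List.replicate v z ++
        List.replicate b z))) = [x, z, x, z] ∨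
      x :: (List.replicate u z ++ (List.replicate a z ++ x :: (List.replicate v z ++
        List.replicate b z))) = [z, x, z, x]) ↔
     (List.replicate u z ++ x :: (List.replicate a z ++ (List.replicate v z ++ x ::
        List.replicate b z)) = [x, z, x, z] ∨
      List.replicate u z ++ x :: (List.replicate a z ++ (List.replicate v z ++ x ::
        List.replicate b z)) = [z, x, z, x])) := by
  have hx : x ≠ z := hz.symm
  have key := key7 u a v b h
  rcases key with ⟨rfl, rfl, rfl, rfl⟩ | ⟨rfl, rfl, rfl, rfl⟩ | ⟨rfl, rfl, rfl, rfl⟩ |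
    ⟨rfl, rfl, rfl, rfl⟩ | ⟨rfl, rfl, rfl, rfl⟩ | ⟨rfl, rfl, rfl, rfl⟩ | ⟨rfl, rfl, rfl, rfl⟩ <;>
    simp [List.replicate, hx, hz]

theorem fin2 (x z u a v b : ℕ) (hz : z ≠ x)
    (h : (u + v = 2 ∧ a + b = 0) ∨ (u + v = 0 ∧ a + b = 2) ∨ (u + v = 0 ∧ a + b = 0)) :
    ((x :: (List.replicate u z ++ (List.replicate a z ++ (List.replicate v z ++ x ::
        List.replicate b z))) = [x, z, x, z] ∨
      x :: (List.replicate u z ++ (List.replicate a z ++ (List.replicate v z ++ x ::
        List.replicate b z))) = [z, x, z, x]) ↔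
     (List.replicate u z ++ x :: (List.replicate a z ++ x :: (List.replicate v z ++
        List.replicate b z)) = [x, z, x, z] ∨
      List.replicate u z ++ x :: (List.replicate a z ++ x :: (List.replicate v z ++
        List.replicate b z)) = [z, x, z, x])) := by
  have hx : x ≠ z := hz.symm
  have key := key7 u a v b h
  rcases key with ⟨rfl, rfl, rfl, rfl⟩ | ⟨rfl, rfl, rfl, rfl⟩ | ⟨rfl, rfl, rfl, rfl⟩ |
    ⟨rfl, rfl, rfl, rfl⟩ | ⟨rfl, rfl, rfl, rfl⟩ | ⟨rfl, rfl, rfl, rfl⟩ | ⟨rfl, rfl, rfl, rfl⟩ <;>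
    simp [List.replicate, hx, hz]

theorem fin3 (x z u a v b : ℕ) (hz : z ≠ x)
    (h : (u + v = 2 ∧ a + b = 0) ∨ (u + v = 0 ∧ a + b = 2) ∨ (u + v = 0 ∧ a + b = 0)) :
    ((x :: (List.replicate u z ++ x :: (List.replicate a z ++ (List.replicate v z ++
        List.replicate b z))) = [x, z, x, z] ∨
      x :: (List.replicate u z ++ x :: (List.replicate a z ++ (List.replicate v z ++
        List.replicate b z))) = [z, x, z, x]) ↔
     (List.replicate u z ++ (List.replicate a z ++ x :: (List.replicate v z ++ x ::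
        List.replicate b z)) = [x, z, x, z] ∨
      List.replicate u z ++ (List.replicate a z ++ x :: (List.replicate v z ++ x ::
        List.replicate b z)) = [z, x, z, x])) := by
  have hx : x ≠ z := hz.symm
  have key := key7 u a v b h
  rcases key with ⟨rfl, rfl, rfl, rfl⟩ | ⟨rfl, rfl, rfl, rfl⟩ | ⟨rfl, rfl, rfl, rfl⟩ |
    ⟨rfl, rfl, rfl, rfl⟩ | ⟨rfl, rfl, rfl, rfl⟩ | ⟨rfl, rfl, rfl, rfl⟩ | ⟨rfl, rfl, rfl, rfl⟩ <;>
    simp [List.replicate, hx, hz]

theorem ilf : IlfStmt := by
  intro x U A V B hUV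
  refine ⟨?_, ?_, ?_⟩
  · intro hG
    obtain ⟨⟨hxU, hxA, hxV, hxB⟩, hc⟩ := cnt (U := U) (A := A) (V := V) (B := B) (x := x) _ hUV hG
      (by
        intro w
        by_cases hw : w = x
        · subst hw
          simp
          omega
        · have hw' : x ≠ w := fun h => hw h.symm
          simp [hw, hw']
          omega)
    apply red (x := x)
    · intro y z hy hz
      simp only [fl_append, fl_cons_ne _ _ _ _ hy hz]
    · intro z hz
      unfold Il
      simp only [fl_append, fl_cons_self, fl_rep hxU, fl_rep hxA, fl_rep hxV, fl_rep hxB]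
      exact and_congr_right fun _ => fin1 x z _ _ _ _ hz (hc z hz)
  · intro hG
    obtain ⟨⟨hxU, hxA, hxV, hxB⟩, hc⟩ := cnt (U := U) (A := A) (V := V) (B := B) (x := x) _ hUV hG
      (by
        intro w
        by_cases hw : w = x
        · subst hw
          simp
          omega
        · have hw' : x ≠ w := fun h => hw h.symm
          simp [hw, hw']
          omega)
    apply red (x := x)
    · intro y z hy hz
      simp only [fl_append, fl_cons_ne _ _ _ _ hy hz]
    · intro z hz
      unfold Il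
      simp only [fl_append, fl_cons_self, fl_rep hxU, fl_rep hxA, fl_rep hxV, fl_rep hxB]
      exact and_congr_right fun _ => fin2 x z _ _ _ _ hz (hc z hz)
  · intro hG
    obtain ⟨⟨hxU, hxA, hxV, hxB⟩, hc⟩ := cnt (U := U) (A := A) (V := V) (B := B) (x := x) _ hUV hG
      (by
        intro w
        by_cases hw : w = x
        · subst hw
          simp
          omega
        · have hw' : x ≠ w := fun h => hw h.symm
          simp [hw, hw']
          omega)
    apply red (x := x)
    · intro y z hy hz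
      simp only [fl_append, fl_cons_ne _ _ _ _ hy hz]
    · intro z hz
      unfold Il
      simp only [fl_append, fl_cons_self, fl_rep hxU, fl_rep hxA, fl_rep hxV, fl_rep hxB]
      exact and_congr_right fun _ => fin3 x z _ _ _ _ hz (hc z hz)

end Pool.Agent.ACK.H11
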